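import Pool.Agent.H923R2.FZ.Stubs2

/-!
MP_118406_an, task HOT (helper784): the Hilbert hotel.
-/

set_option autoImplicit false

open scoped ComplexConjugate

noncomputable section

namespace Pool.Agent.H923R2.FZ.T_HOT

open Pool.Agent.H923R2.FP Pool.Agent.H923R2.FZ

/-- dependent choice -/
theorem exists_seq {α : Type} (P : α → Prop) (Q : ℕ → α → α → Prop) (a0 : α) (h0 : P a0)
    (hs : ∀ m a, P a → ∃ a', P a' ∧ Q m a a') :
    ∃ s : ℕ → α, s 0 = a0 ∧ ∀ m, P (s m) ∧ Q m (s m) (s (m + 1)) := by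
  choose g hg using hs
  let s' : ℕ → {a : α // P a} := fun n =>
    Nat.rec ⟨a0, h0⟩ (fun m a => ⟨g m a.1 a.2, (hg m a.1 a.2).1⟩) n
  refine ⟨fun m => (s' m).1, rfl, fun m => ⟨(s' m).2, ?_⟩⟩
  exact (hg m (s' m).1 (s' m).2).2

theorem free_map {A K K' : Type} [CStarAlgebra A] (τ : A →ₗ[ℂ] ℂ) (S : K → StarSubalgebra ℂ A)
    (hS : FreeFam τ S) (g : K' → K) (hg : Function.Injective g) (w : List (K' × A))
    (hw : w ≠ []) (h1 : ∀ z ∈ w, z.2 ∈ S (g z.1) ∧ τ z.2 = 0)
    (h2 : w.IsChain (fun x y => x.1 ≠ y.1)) : τ ((w.map Prod.snd).prod) = 0 := by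
  have h3 := hS (w.map fun z => (g z.1, z.2)) (by simpa using hw) (by
    intro z hz
    rw [List.mem_map] at hz
    obtain ⟨z', hz', rfl⟩ := hz
    exact h1 z' hz') (by
    rw [List.isChain_map]
    refine h2.imp ?_
    intro a b hab h
    exact hab (hg h))
  rw [List.map_map] at h3
  exact h3

theorem t_HOT (hHSTEP : S_HSTEP) : S_HOT := by
  intro Z _ t hCJ k B _ _ τ e f hf
  have hne : Nonempty B := ⟨0⟩
  obtain ⟨b, hb⟩ : ∃ b : ℕ → B, DenseRange b :=
    ⟨TopologicalSpace.denseSeq B, TopologicalSpace.denseRange_denseSeq B⟩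
  -- the sequence of configurations
  obtain ⟨s, hs0, hs⟩ := exists_seq
    (α := (Fin (k + 1) → (Z →⋆ₐ[ℂ] B)) × (ℕ → (C(unitInterval, ℂ) →⋆ₐ[ℂ] B)) × ℕ)
    (fun c => RFPw (J := Fin (k + 1)) (fun _ => Z) (fun _ => t) τ c.1 c.2.1 ∧
      ∀ j : Fin k, c.1 j.castSucc = e j.castSucc)
    (fun m c c' => (∀ n < c.2.2 + 1, c'.2.1 n = c.2.1 n) ∧ c.2.2 + 1 ≤ c'.2.2 ∧
      ∀ i ≤ m, ∃ y ∈ StarAlgebra.adjoin ℂ ((⋃ j : Fin k, Set.range (e j.castSucc)) ∪
        ⋃ n : {n : ℕ // n < c'.2.2}, Set.range (c'.2.1 n.1)), ‖b i - y‖ < 1 / ((m : ℝ) + 1))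
    (e, f, 0) ⟨hf, fun j => rfl⟩ (by
      classical
      rintro m ⟨e1, f1, N1⟩ ⟨hR, he1⟩
      obtain ⟨e', f', N', h1, h2, h3, h4, h5⟩ := hHSTEP Z t hCJ k B τ e1 f1 hR (N1 + 1)
        ((Finset.range (m + 1)).image b) (1 / ((m : ℝ) + 1)) (by positivity)
      refine ⟨(e', f', N'), ⟨h1, fun j => by rw [← he1 j]; exact h2 j⟩, h3, h4, ?_⟩
      intro i hi
      obtain ⟨y, hy, hy'⟩ := h5 (b i) (Finset.mem_image_of_mem b (Finset.mem_range.2 (by omega)))
      refine ⟨y, ?_, hy'⟩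
      have he : (⋃ j : Fin k, Set.range (e1 j.castSucc)) =
          ⋃ j : Fin k, Set.range (e j.castSucc) := Set.iUnion_congr fun j => by
        have := he1 j
        simp only at this
        rw [this]
      rwa [he] at hy)
  have hR : ∀ m, RFPw (J := Fin (k + 1)) (fun _ => Z) (fun _ => t) τ (s m).1 (s m).2.1 :=
    fun m => (hs m).1.1
  have hE : ∀ m (j : Fin k), (s m).1 j.castSucc = e j.castSucc := fun m => (hs m).1.2
  have hstep : ∀ m n, n < (s m).2.2 + 1 → (s (m + 1)).2.1 n = (s m).2.1 n :=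
    fun m n hn => (hs m).2.1 n hn
  have hN : ∀ m, (s m).2.2 + 1 ≤ (s (m + 1)).2.2 := fun m => (hs m).2.2.1
  have hNm : ∀ m, m ≤ (s m).2.2 := by
    intro m
    induction m with
    | zero => exact Nat.zero_le _
    | succ m ih => exact (Nat.succ_le_succ ih).trans (hN m)
  have hNle : ∀ m d, (s m).2.2 ≤ (s (m + d)).2.2 := by
    intro m d
    induction d with
    | zero => exact le_rfl
    | succ d ih => exact ih.trans ((Nat.le_succ _).trans (hN (m + d)))
  have hst : ∀ m d n, n ≤ (s m).2.2 → (s (m + d)).2.1 n = (s m).2.1 n := by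
    intro m d n hn
    induction d with
    | zero => rfl
    | succ d ih =>
      rw [← add_assoc, hstep (m + d) n (Nat.lt_succ_of_le (hn.trans (hNle m d))), ih]
  -- the limit
  obtain ⟨G, hG⟩ : ∃ G : ℕ → (C(unitInterval, ℂ) →⋆ₐ[ℂ] B), ∀ n, G n = (s n).2.1 n :=
    ⟨_, fun n => rfl⟩
  have hGm : ∀ m n, n ≤ (s m).2.2 → (s m).2.1 n = G n := by
    intro m n hn
    rw [hG]
    rcases le_total m n with h | h
    · obtain ⟨d, rfl⟩ := Nat.exists_eq_add_of_le h
      exact (hst m d _ hn).symm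
    · obtain ⟨d, rfl⟩ := Nat.exists_eq_add_of_le h
      exact hst n d n (hNm n)
  refine ⟨G, hf.fts, fun j x => hf.tr j.castSucc x, fun n x => ?_, ?_, ?_⟩
  · rw [hG]
    exact (hR n).trf n x
  · intro w hw h1 h2
    obtain ⟨M, hM⟩ : ∃ M : ℕ, ∀ z ∈ w, ∀ n : ℕ, z.1 = Sum.inr n → n ≤ M := by
      clear hw h1 h2
      induction w with
      | nil => exact ⟨0, fun z hz => by simp at hz⟩
      | cons a w ih =>
        obtain ⟨M, hM⟩ := ih
        rcases ha : a.1 with j | n
        · refine ⟨M, fun z hz n hn => ?_⟩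
          rcases List.mem_cons.1 hz with rfl | hz
          · rw [ha] at hn
            exact absurd hn (by simp)
          · exact hM z hz n hn
        · refine ⟨max M n, fun z hz n' hn => ?_⟩
          rcases List.mem_cons.1 hz with rfl | hz
          · rw [ha] at hn
            have := Sum.inr.inj hn
            omega
          · exact (hM z hz n' hn).trans (le_max_left _ _)
    refine free_map τ _ (hR M).free (Sum.map Fin.castSucc id : Fin k ⊕ ℕ → Fin (k + 1) ⊕ ℕ)
      (Function.Injective.sumMap (Fin.castSucc_injective k) Function.injective_id) w hw ?_ h2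
    rintro ⟨o, x⟩ hz
    have h3 := h1 _ hz
    refine ⟨?_, h3.2⟩
    rcases o with j | n
    · have h4 : x ∈ (e j.castSucc).range := h3.1
      show x ∈ ((s M).1 j.castSucc).range
      rw [hE M j]
      exact h4
    · have h4 : x ∈ (G n).range := h3.1
      show x ∈ ((s M).2.1 n).range
      rw [hGm M n ((hM _ hz n rfl).trans (hNm M))]
      exact h4
  · rw [eq_top_iff]
    intro x _
    rw [← SetLike.mem_coe, StarSubalgebra.topologicalClosure_coe, Metric.mem_closure_iff]
    intro ε hε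
    obtain ⟨i, hi⟩ := hb.exists_dist_lt x (half_pos hε)
    obtain ⟨m0, hm0⟩ := exists_nat_one_div_lt (half_pos hε)
    obtain ⟨m, hm⟩ : ∃ m, m = max i m0 := ⟨_, rfl⟩
    obtain ⟨y, hy, hy'⟩ := (hs m).2.2.2 i (hm ▸ le_max_left _ _)
    refine ⟨y, ?_, ?_⟩
    · have hsub : ((⋃ j : Fin k, Set.range (e j.castSucc)) ∪
          ⋃ n : {n : ℕ // n < (s (m + 1)).2.2}, Set.range ((s (m + 1)).2.1 n.1)) ⊆
          ((⋃ j : Fin k, Set.range (e j.castSucc)) ∪ ⋃ n, Set.range (G n)) := by
        apply Set.union_subset_union_right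
        apply Set.iUnion_subset
        rintro ⟨n, hn⟩
        simp only
        rw [hGm (m + 1) n hn.le]
        exact Set.subset_iUnion (fun n => Set.range (G n)) n
      exact StarAlgebra.adjoin_mono hsub hy
    · have h1 : (1 : ℝ) / ((m : ℝ) + 1) ≤ 1 / ((m0 : ℝ) + 1) := by
        apply one_div_le_one_div_of_le (by positivity)
        have : (m0 : ℝ) ≤ m := by
          rw [hm]
          exact_mod_cast le_max_right i m0
        linarith
      calc dist x y ≤ dist x (b i) + dist (b i) y := dist_triangle _ _ _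
        _ < ε / 2 + ε / 2 := by
            apply add_lt_add hi
            rw [dist_eq_norm]
            linarith
        _ = ε := add_halves ε

end Pool.Agent.H923R2.FZ.T_HOT
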